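import Mathlib

/-!
# Balls in finitely generated groups, a discrete Stokes argument, covers with two families
-/

set_option autoImplicit false

namespace Pool.Agent.ASD

/-- `Bl S r g`: the element `g` is a product of at most `r` elements of `S` or inverses of such. -/
def Bl {G : Type*} [Group G] (S : Finset G) (r : ℕ) (g : G) : Prop :=
  ∃ l : List G, l.length ≤ r ∧ (∀ x ∈ l, x ∈ S ∨ x⁻¹ ∈ S) ∧ l.prod = g

/-- asymptotic dimension at most `n`, in the form used by the frozen statement of the problem -/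
def AsdimLE {G : Type*} [Group G] (S : Finset G) (n : ℕ) : Prop :=
  ∀ R : ℕ, ∃ D : ℕ, ∃ U : Fin (n + 1) → Set (Set G),
    (∀ g : G, ∃ i, ∃ A ∈ U i, g ∈ A) ∧
    (∀ i, ∀ A ∈ U i, ∀ x ∈ A, ∀ y ∈ A, Bl S D (x⁻¹ * y)) ∧
    (∀ i, ∀ A ∈ U i, ∀ A' ∈ U i, A ≠ A' → ∀ x ∈ A, ∀ y ∈ A', ¬ Bl S R (x⁻¹ * y))

section balls

variable {G : Type*} [Group G] {S T : Finset G} {r s : ℕ} {g h : G}

theorem Bl.one : Bl S r (1 : G) := ⟨[], by simp, by simp, by simp⟩

theorem Bl.mono (h1 : r ≤ s) (h2 : Bl S r g) : Bl S s g := by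
  obtain ⟨l, a, b, c⟩ := h2
  exact ⟨l, a.trans h1, b, c⟩

theorem Bl.mul (h1 : Bl S r g) (h2 : Bl S s h) : Bl S (r + s) (g * h) := by
  obtain ⟨l, a, b, c⟩ := h1
  obtain ⟨l', a', b', c'⟩ := h2
  refine ⟨l ++ l', by simp; omega, ?_, by simp [c, c']⟩
  intro x hx
  rcases List.mem_append.1 hx with h | h
  · exact b x h
  · exact b' x h

theorem Bl.inv (h1 : Bl S r g) : Bl S r g⁻¹ := by
  obtain ⟨l, a, b, c⟩ := h1
  refine ⟨(l.map (fun x => x⁻¹)).reverse, by simpa using a, ?_, ?_⟩
  · intro x hx
    simp only [List.mem_reverse, List.mem_map] at hx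
    obtain ⟨y, hy, rfl⟩ := hx
    rcases b y hy with h | h
    · right; simpa using h
    · left; exact h
  · rw [← List.prod_inv_reverse, c]

theorem bl_one_of_mem (h : g ∈ S) : Bl S 1 g := ⟨[g], by simp, by simp [h], by simp⟩

theorem bl_finite (S : Finset G) (r : ℕ) : {g : G | Bl S r g}.Finite := by
  classical
  induction r with
  | zero =>
    apply (Set.finite_singleton (1 : G)).subset
    rintro g ⟨l, a, b, c⟩
    have : l = [] := List.length_eq_zero_iff.1 (by omega)
    subst this
    simpa using c.symm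
  | succ r ih =>
    have h1 : {g : G | Bl S (r + 1) g} ⊆
        (⋃ x ∈ (S ∪ S.image (fun x => x⁻¹) : Finset G), (fun y => x * y) '' {g : G | Bl S r g}) ∪
          {g : G | Bl S r g} := by
      rintro g ⟨l, a, b, c⟩
      cases l with
      | nil =>
        right
        exact ⟨[], by simp, by simp, c⟩
      | cons x l =>
        left
        simp only [Set.mem_iUnion]
        refine ⟨x, ?_, l.prod, ⟨l, by simpa using a, fun y hy => b y (by simp [hy]), rfl⟩, ?_⟩
        · rcases b x (by simp) with h | h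
          · simp [h]
          · simp only [Finset.mem_union, Finset.mem_image]
            right
            exact ⟨x⁻¹, h, by simp⟩
        · simpa using c
    apply Set.Finite.subset _ h1
    apply Set.Finite.union _ ih
    apply Set.Finite.biUnion (Finset.finite_toSet _)
    intro x _
    exact ih.image _

theorem bl_mem (h : Bl S r g) : g ∈ Subgroup.closure (S : Set G) := by
  obtain ⟨l, a, b, c⟩ := h
  rw [← c]
  apply Subgroup.list_prod_mem
  intro x hx
  rcases b x hx with h | h
  · exact Subgroup.subset_closure h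
  · exact (Subgroup.inv_mem_iff _).1 (Subgroup.subset_closure h)

theorem exists_bl (h : g ∈ Subgroup.closure (S : Set G)) : ∃ r, Bl S r g := by
  induction h using Subgroup.closure_induction with
  | mem x hx => exact ⟨1, bl_one_of_mem hx⟩
  | one => exact ⟨0, Bl.one⟩
  | mul x y _ _ hx hy =>
    obtain ⟨r, hr⟩ := hx
    obtain ⟨s, hs⟩ := hy
    exact ⟨r + s, hr.mul hs⟩
  | inv x _ hx =>
    obtain ⟨r, hr⟩ := hx
    exact ⟨r, hr.inv⟩

/-- on a finite set inside the subgroup generated by `T` the word length is bounded -/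
theorem exists_bl_unif {P : Set G} (hP : P.Finite)
    (h : ∀ g ∈ P, g ∈ Subgroup.closure (T : Set G)) : ∃ C, ∀ g ∈ P, Bl T C g := by
  classical
  have h1 : ∀ g : G, ∃ r, g ∈ P → Bl T r g := by
    intro g
    by_cases hg : g ∈ P
    · obtain ⟨r, hr⟩ := exists_bl (h g hg)
      exact ⟨r, fun _ => hr⟩
    · exact ⟨0, fun h => absurd h hg⟩
  choose f hf using h1
  refine ⟨hP.toFinset.sup f, fun g hg => (hf g hg).mono ?_⟩
  exact Finset.le_sup (f := f) (hP.mem_toFinset.2 hg)

/-- an element of length at most `C` is reached by a path with `C` steps -/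
theorem exists_path {C : ℕ} (h : Bl T C g) (x : G) :
    ∃ p : ℕ → G, p 0 = x ∧ p C = x * g ∧ ∀ i, Bl T 1 ((p i)⁻¹ * p (i + 1)) := by
  obtain ⟨l, a, b, c⟩ := h
  refine ⟨fun i => x * (l.take i).prod, by simp, ?_, ?_⟩
  · simp only
    rw [List.take_of_length_le a, c]
  · intro i
    by_cases hi : i < l.length
    · have h1 : l.take (i + 1) = l.take i ++ [l[i]] := by
        simp [List.take_append_getElem]
      have h2 : (x * (l.take i).prod)⁻¹ * (x * (l.take (i + 1)).prod) = l[i] := by
        rw [h1, List.prod_append]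
        simp
      simp only [h2]
      rcases b l[i] (List.getElem_mem hi) with h | h
      · exact bl_one_of_mem h
      · have := (bl_one_of_mem h).inv
        simpa using this
    · have h1 : l.take (i + 1) = l := List.take_of_length_le (by omega)
      have h2 : l.take i = l := List.take_of_length_le (by omega)
      simp only [h1, h2, inv_mul_cancel]
      exact Bl.one

end balls

/-! ### Discrete Stokes -/

/-- the jump from `(false, false)` to `(true, false)` -/
def jp (a b : Bool × Bool) : ℤ :=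
  if a = (false, false) ∧ b = (true, false) then 1
  else if a = (true, false) ∧ b = (false, false) then -1 else 0

theorem jp_tri : ∀ a b c : Bool × Bool, (a = b ∨ b = c ∨ a = c) →
    jp a b + jp b c = jp a c := by decide

theorem jp_fst : ∀ a b : Bool × Bool, a.1 = b.1 → jp a b = 0 := by decide

theorem jp_top : ∀ a b : Bool × Bool, a.2 = true → jp a b = 0 := by decide

/-- value of the first coordinate as an integer -/
def vl (a : Bool × Bool) : ℤ := if a.1 then 1 else 0

theorem jp_bot : ∀ a b : Bool × Bool, a.2 = false → b.2 = false → jp a b = vl b - vl a := by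
  decide

theorem stokes_row (w : ℕ → ℕ → Bool × Bool) (j L : ℕ)
    (h1 : ∀ i < L, w j i = w j (i + 1) ∨ w j (i + 1) = w (j + 1) (i + 1) ∨
      w j i = w (j + 1) (i + 1))
    (h2 : ∀ i < L, w j i = w (j + 1) i ∨ w (j + 1) i = w (j + 1) (i + 1) ∨
      w j i = w (j + 1) (i + 1)) :
    (∑ i ∈ Finset.range L, jp (w j i) (w j (i + 1))) + jp (w j L) (w (j + 1) L) =
      jp (w j 0) (w (j + 1) 0) +
        ∑ i ∈ Finset.range L, jp (w (j + 1) i) (w (j + 1) (i + 1)) := by
  induction L with
  | zero => simp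
  | succ L ih =>
    have ih' := ih (fun i hi => h1 i (by omega)) (fun i hi => h2 i (by omega))
    rw [Finset.sum_range_succ, Finset.sum_range_succ]
    have e1 := jp_tri _ _ _ (h1 L (by omega))
    have e2 := jp_tri _ _ _ (h2 L (by omega))
    linarith

/-- A labelling of the grid by pairs of booleans such that every triangle has at most two labels
cannot send left, right, bottom, top to first coordinate false, true and second coordinate
false, true. -/
theorem stokes (w : ℕ → ℕ → Bool × Bool) (M L : ℕ)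
    (h1 : ∀ j < M, ∀ i < L, w j i = w j (i + 1) ∨ w j (i + 1) = w (j + 1) (i + 1) ∨
      w j i = w (j + 1) (i + 1))
    (h2 : ∀ j < M, ∀ i < L, w j i = w (j + 1) i ∨ w (j + 1) i = w (j + 1) (i + 1) ∨
      w j i = w (j + 1) (i + 1))
    (hl : ∀ j ≤ M, (w j 0).1 = false) (hr : ∀ j ≤ M, (w j L).1 = true)
    (hb : ∀ i ≤ L, (w 0 i).2 = false) (ht : ∀ i ≤ L, (w M i).2 = true) : False := by
  have h3 : ∀ j ≤ M, ∑ i ∈ Finset.range L, jp (w j i) (w j (i + 1)) = 1 := by
    intro j
    induction j with
    | zero =>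
      intro _
      have h4 : ∀ K ≤ L, ∑ i ∈ Finset.range K, jp (w 0 i) (w 0 (i + 1)) =
          vl (w 0 K) - vl (w 0 0) := by
        intro K
        induction K with
        | zero => intro _; simp
        | succ K ih =>
          intro hK
          rw [Finset.sum_range_succ, ih (by omega),
            jp_bot _ _ (hb K (by omega)) (hb (K + 1) hK)]
          ring
      rw [h4 L le_rfl]
      simp [vl, hl 0 (by omega), hr 0 (by omega)]
    | succ j ih =>
      intro hj
      have h5 := stokes_row w j L (h1 j (by omega)) (h2 j (by omega))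
      rw [ih (by omega), jp_fst _ _ (by rw [hr j (by omega), hr (j + 1) hj]),
        jp_fst _ _ (by rw [hl j (by omega), hl (j + 1) hj])] at h5
      linarith
  have h6 := h3 M le_rfl
  rw [Finset.sum_eq_zero] at h6
  · exact absurd h6 (by norm_num)
  · intro i hi
    exact jp_top _ _ (ht i (Finset.mem_range.1 hi).le)

/-! ### A sheet excludes covers by two families -/

theorem no_sheet {G : Type*} [Group G] {S : Finset G} {R D : ℕ}
    (U : Fin 2 → Set (Set G))
    (hc : ∀ g : G, ∃ i, ∃ A ∈ U i, g ∈ A)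
    (hD : ∀ i, ∀ A ∈ U i, ∀ x ∈ A, ∀ y ∈ A, Bl S D (x⁻¹ * y))
    (hR : ∀ i, ∀ A ∈ U i, ∀ A' ∈ U i, A ≠ A' → ∀ x ∈ A, ∀ y ∈ A', ¬ Bl S R (x⁻¹ * y))
    (F : ℕ → ℕ → G) (M L : ℕ)
    (h01 : ∀ j ≤ M, ∀ i < L, Bl S R ((F j i)⁻¹ * F j (i + 1)))
    (h10 : ∀ j < M, ∀ i ≤ L, Bl S R ((F j i)⁻¹ * F (j + 1) i))
    (h11 : ∀ j < M, ∀ i < L, Bl S R ((F j i)⁻¹ * F (j + 1) (i + 1)))
    (hlr : ∀ j ≤ M, ∀ j' ≤ M, ¬ Bl S D ((F j 0)⁻¹ * F j' L))
    (hbt : ∀ i ≤ L, ∀ i' ≤ L, ¬ Bl S D ((F 0 i)⁻¹ * F M i')) : False := by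
  classical
  choose κ hκ using hc
  choose A hA hmem using hκ
  have key : ∀ x y : G, κ x = κ y → Bl S R (x⁻¹ * y) → A x = A y := by
    intro x y h1 h2
    by_contra h3
    have h4 := hA y
    rw [← h1] at h4
    exact hR (κ x) (A x) (hA x) (A y) h4 h3 x (hmem x) y (hmem y) h2
  have two : ∀ x y z : G, Bl S R (x⁻¹ * y) → Bl S R (y⁻¹ * z) → Bl S R (x⁻¹ * z) →
      (A x = A y ∨ A y = A z ∨ A x = A z) := by
    intro x y z hxy hyz hxz
    have : κ x = κ y ∨ κ y = κ z ∨ κ x = κ z := by
      generalize κ x = a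
      generalize κ y = b
      generalize κ z = c
      revert a b c
      decide
    rcases this with h | h | h
    · exact Or.inl (key x y h hxy)
    · exact Or.inr (Or.inl (key y z h hyz))
    · exact Or.inr (Or.inr (key x z h hxz))
  set lab : G → Bool × Bool := fun g =>
    (!decide (∃ j ≤ M, F j 0 ∈ A g), !decide (∃ i ≤ L, F 0 i ∈ A g)) with hlab
  have labeq : ∀ x y : G, A x = A y → lab x = lab y := by
    intro x y h
    simp only [hlab, h]
  refine stokes (fun j i => lab (F j i)) M L ?_ ?_ ?_ ?_ ?_ ?_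
  · intro j hj i hi
    rcases two _ _ _ (h01 j hj.le i hi) (h10 j hj (i + 1) hi) (h11 j hj i hi) with h | h | h
    · exact Or.inl (labeq _ _ h)
    · exact Or.inr (Or.inl (labeq _ _ h))
    · exact Or.inr (Or.inr (labeq _ _ h))
  · intro j hj i hi
    rcases two _ _ _ (h10 j hj i hi.le) (h01 (j + 1) hj i hi) (h11 j hj i hi) with h | h | h
    · exact Or.inl (labeq _ _ h)
    · exact Or.inr (Or.inl (labeq _ _ h))
    · exact Or.inr (Or.inr (labeq _ _ h))
  · intro j hj
    simp only [hlab, Bool.not_eq_false', decide_eq_true_eq]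
    exact ⟨j, hj, hmem _⟩
  · intro j hj
    simp only [hlab, Bool.not_eq_true', decide_eq_false_iff_not, not_exists, not_and]
    intro j' hj' h
    exact hlr j' hj' j hj (hD _ _ (hA (F j L)) _ h _ (hmem _))
  · intro i hi
    simp only [hlab, Bool.not_eq_false', decide_eq_true_eq]
    exact ⟨i, hi, hmem _⟩
  · intro i hi
    simp only [hlab, Bool.not_eq_true', decide_eq_false_iff_not, not_exists, not_and]
    intro i' hi' h
    exact hbt i' hi' i hi (hD _ _ (hA (F M i)) _ h _ (hmem _))

end Pool.Agent.ASD
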