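import Pool.Agent.ASD.Main

/-!
# No covers with two families in the presence of a commensurated subgroup
-/

set_option autoImplicit false

namespace Pool.Agent.ASD

open scoped Pointwise

variable {G : Type*} [Group G]

theorem coset_reps (K : Subgroup G) {a : G}
    (ha : a ∈ Subgroup.Commensurable.commensurator K) :
    ∃ P : Set G, P.Finite ∧ ∀ k ∈ K, ∃ b ∈ P, a⁻¹ * k * b ∈ K := by
  have h1 : Subgroup.relIndex (ConjAct.toConjAct a • K) K ≠ 0 :=
    ((Subgroup.Commensurable.commensurator_mem_iff K a).1 ha).1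
  set H : Subgroup K := Subgroup.subgroupOf (ConjAct.toConjAct a • K) K with hH
  have hfin : Finite (K ⧸ H) := by
    have h2 : H.FiniteIndex := ⟨h1⟩
    exact Subgroup.finite_quotient_of_finiteIndex
  refine ⟨Set.range (fun q : K ⧸ H => (Quotient.out q : K) * a), Set.finite_range _, ?_⟩
  intro k hk
  set q : K ⧸ H := QuotientGroup.mk ((⟨k, hk⟩ : K)⁻¹) with hq
  refine ⟨_, ⟨q, rfl⟩, ?_⟩
  have h2 : (Quotient.out q)⁻¹ * (⟨k, hk⟩ : K)⁻¹ ∈ H := by
    rw [← QuotientGroup.eq, ← hq]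
    exact QuotientGroup.out_eq' _
  have h3 := (Subgroup.mem_subgroupOf.1 h2)
  rw [Subgroup.mem_pointwise_smul_iff_inv_smul_mem] at h3
  have h4 := K.inv_mem h3
  have h5 : ((ConjAct.toConjAct a)⁻¹ • ((((Quotient.out q)⁻¹ * (⟨k, hk⟩ : K)⁻¹ : K)) : G)) =
      a⁻¹ * (((Quotient.out q : K) : G)⁻¹ * k⁻¹) * a := by
    rw [← ConjAct.toConjAct_inv, ConjAct.toConjAct_smul]
    simp
  rw [h5] at h4
  convert h4 using 1
  group

/-- a finite set of left cosets of a subgroup of infinite index does not exhaust the group -/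
theorem exists_far (K N : Subgroup G) (hidx : K.relIndex N = 0) {P : Set G} (hP : P.Finite) :
    ∃ g ∈ N, ∀ b ∈ P, b⁻¹ * g ∉ K := by
  classical
  by_contra hcon
  push Not at hcon
  have h1 : ∀ g : N, ∃ b : P, (b : G)⁻¹ * (g : G) ∈ K := by
    intro g
    obtain ⟨b, hb, h⟩ := hcon g g.2
    exact ⟨⟨b, hb⟩, h⟩
  choose f hf using h1
  have hPf : Finite P := hP
  have h2 : Finite (N ⧸ K.subgroupOf N) := by
    apply Finite.of_injective (fun q : N ⧸ K.subgroupOf N => f (Quotient.out q))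
    intro q q' h
    simp only at h
    have e1 := hf (Quotient.out q)
    have e2 := hf (Quotient.out q')
    rw [← h] at e2
    have e3 := K.mul_mem (K.inv_mem e1) e2
    rw [← Quotient.out_eq' q, ← Quotient.out_eq' q']
    apply (QuotientGroup.eq).2
    rw [Subgroup.mem_subgroupOf]
    convert e3 using 1
    push_cast
    group
  have h3 : (K.subgroupOf N).FiniteIndex := Subgroup.finiteIndex_of_finite_quotient
  exact h3.index_ne_zero hidx

theorem not_asdim_one {S : Finset G} (hS : Subgroup.closure (S : Set G) = ⊤)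
    (K N : Subgroup G) (hK : K.FG) (hN : N.FG) (hle : K ≤ N)
    (hcomm : N ≤ Subgroup.Commensurable.commensurator K) (hidx : K.relIndex N = 0)
    (hinf : (K : Set G).Infinite) : ¬ AsdimLE S 1 := by
  classical
  obtain ⟨T, hT⟩ := hK
  obtain ⟨A, hA⟩ := hN
  set Q : Set G := {x | x ∈ A ∨ x⁻¹ ∈ A} with hQ
  have hQf : Q.Finite := by
    have : Q ⊆ {x | Bl A 1 x} := by
      intro x hx
      exact ⟨[x], by simp, fun y hy => by rw [List.mem_singleton.1 hy]; exact hx, by simp⟩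
    exact (bl_finite A 1).subset this
  have hQN : ∀ a ∈ Q, a ∈ N := by
    intro a ha
    rw [← hA]
    rcases ha with h | h
    · exact Subgroup.subset_closure h
    · exact (Subgroup.inv_mem_iff _).1 (Subgroup.subset_closure h)
  have hall : ∀ g : G, g ∈ Subgroup.closure (S : Set G) := by
    intro g; rw [hS]; trivial
  -- r₀
  have hr : ∃ r₀, ∀ a ∈ Q, ∀ k ∈ K, ∃ b, Bl S r₀ b ∧ a⁻¹ * k * b ∈ K := by
    have h1 : ∀ a : G, ∃ r, a ∈ Q → ∀ k ∈ K, ∃ b, Bl S r b ∧ a⁻¹ * k * b ∈ K := by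
      intro a
      by_cases ha : a ∈ Q
      · obtain ⟨P, hP, h2⟩ := coset_reps K (hcomm (hQN a ha))
        obtain ⟨r, h3⟩ := exists_bl_unif (T := S) hP (fun g _ => hall g)
        refine ⟨r, fun _ k hk => ?_⟩
        obtain ⟨b, hb, h4⟩ := h2 k hk
        exact ⟨b, h3 b hb, h4⟩
      · exact ⟨0, fun h => absurd h ha⟩
    choose r h1 using h1
    refine ⟨hQf.toFinset.sup r, fun a ha k hk => ?_⟩
    obtain ⟨b, hb, h5⟩ := h1 a ha k hk
    exact ⟨b, hb.mono (Finset.le_sup (f := r) (hQf.mem_toFinset.2 ha)), h5⟩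
  obtain ⟨r₀, hr⟩ := hr
  obtain ⟨c, hc⟩ := exists_bl_unif (T := S) (bl_finite T 1) (fun g _ => hall g)
  have hTK : ∀ h, Bl T 1 h → h ∈ K := by
    intro h hh
    rw [← hT]
    exact bl_mem hh
  obtain ⟨C', hC'⟩ := exists_bl_unif (T := T) (P := {h | h ∈ K ∧ Bl S (r₀ + c + r₀) h})
    ((bl_finite S (r₀ + c + r₀)).subset (fun h hh => hh.2))
    (fun g hg => by rw [hT]; exact hg.1)
  set C := C' + 1 with hCdef
  have hC : ∀ h ∈ K, Bl S (r₀ + c + r₀) h → Bl T C h :=
    fun h hh h2 => (hC' h ⟨hh, h2⟩).mono (Nat.le_succ _)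
  intro has
  obtain ⟨D, U, hU1, hU2, hU3⟩ := has (c + (r₀ + C * c))
  -- an element of `N` far from `K`
  have hPfin : ∃ P : Set G, P.Finite ∧ ∀ h ∈ N, Bl S D h → ∀ k ∈ K, ∃ b ∈ P,
      h⁻¹ * k * b ∈ K := by
    have h1 : ∀ h : G, ∃ P : Set G, P.Finite ∧ (h ∈ N → ∀ k ∈ K, ∃ b ∈ P, h⁻¹ * k * b ∈ K) := by
      intro h
      by_cases hh : h ∈ N
      · obtain ⟨P, h2, h3⟩ := coset_reps K (hcomm hh)
        exact ⟨P, h2, fun _ => h3⟩
      · exact ⟨∅, Set.finite_empty, fun h => absurd h hh⟩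
    choose P h1 h2 using h1
    refine ⟨⋃ h ∈ {h | Bl S D h}, P h, Set.Finite.biUnion (bl_finite S D) (fun h _ => h1 h), ?_⟩
    intro h hN hD k hk
    obtain ⟨b, hb, h3⟩ := h2 h hN k hk
    exact ⟨b, Set.mem_biUnion (show h ∈ {h | Bl S D h} from hD) hb, h3⟩
  obtain ⟨P, hPf, hP⟩ := hPfin
  obtain ⟨g, hgN, hg⟩ := exists_far K N hidx hPf
  by_cases hKN : ∃ x ∈ K, ∃ y ∈ K, Bl S D (x * g * y) ∧ x * g * y ∈ N
  · obtain ⟨x, hx, y, hy, h1, h2⟩ := hKN
    obtain ⟨b, hb, h3⟩ := hP _ h2 h1 x hx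
    apply hg b hb
    -- `(x g y)⁻¹ x b = y⁻¹ g⁻¹ b ∈ K`
    have h4 := K.mul_mem hy h3
    have h5 := K.inv_mem h4
    convert h5 using 1
    group
  push Not at hKN
  obtain ⟨n, l, hl1, hl2, hl3⟩ := exists_bl (S := A) (g := g) (by rw [hA]; exact hgN)
  set M := l.length with hM
  set a : ℕ → G := fun j => l.getD j 1 with ha
  have hmap : (List.range M).map a = l := by
    apply List.ext_getElem
    · simp [hM]
    · intro i h1 h2
      simp [ha, h2]
  have haQ : ∀ j < M, a j ∈ Q := by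
    intro j hj
    have : a j = l[j] := List.getD_eq_getElem _ _ hj
    rw [this]
    exact hl2 _ (List.getElem_mem hj)
  obtain ⟨k, hkK, hk⟩ : ∃ k ∈ K, ¬ Bl S (r₀ * M + D + r₀ * M) k := by
    by_contra hcon
    push Not at hcon
    exact hinf ((bl_finite S (r₀ * M + D + r₀ * M)).subset (fun k hk => hcon k hk))
  obtain ⟨L, F, f1, f2, f3, f4, f5, f6⟩ := sheet K Q hr hc hC (Nat.succ_pos _) hTK k
    (by rw [hT]; exact hkK) a M haQ
  rw [hmap, hl3] at f6
  refine no_sheet U hU1 hU2 hU3 F M L ?_ ?_ ?_ ?_ ?_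
  · intro j hj i _
    exact (hc _ (f1 j hj i)).mono (by omega)
  · intro j hj i _
    exact (f2 j hj i).mono (by omega)
  · intro j hj i _
    have h1 := (hc _ (f1 j hj.le i)).mul (f2 j hj (i + 1))
    convert h1 using 1
    group
  · intro j hj j' hj' h
    apply hk
    have h1 := ((f3 j hj).mul h).mul (f4 j' hj').inv
    have h2 := h1.mono (s := r₀ * M + D + r₀ * M) (by
      have e1 := Nat.mul_le_mul_left r₀ hj
      have e2 := Nat.mul_le_mul_left r₀ hj'
      omega)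
    convert h2 using 1
    group
  · intro i _ i' _ h
    have h1 := hKN (F 0 i)⁻¹ (K.inv_mem (f5 i)) (g⁻¹ * F M i') (f6 i')
    have e : (F 0 i)⁻¹ * g * (g⁻¹ * F M i') = (F 0 i)⁻¹ * F M i' := by group
    apply h1 (by rw [e]; exact h)
    exact N.mul_mem (N.mul_mem (N.inv_mem (hle (f5 i))) hgN) (hle (f6 i'))

end Pool.Agent.ASD
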