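import Pool.Agent.ASD.Growth

/-!
# Final theorems
-/

set_option autoImplicit false

namespace Pool.Agent.ASD

open scoped Pointwise

variable {G : Type*} [Group G]

/-- the kernel of `f : N → ℤ` as a subgroup of `G` -/
def kr (N : Subgroup G) (f : N →* Multiplicative ℤ) : Subgroup G := f.ker.map N.subtype

theorem mem_kr {N : Subgroup G} {f : N →* Multiplicative ℤ} {x : G} :
    x ∈ kr N f ↔ ∃ h : x ∈ N, f ⟨x, h⟩ = 1 := by
  unfold kr
  rw [Subgroup.mem_map]
  constructor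
  · rintro ⟨y, hy, rfl⟩
    exact ⟨y.2, hy⟩
  · rintro ⟨h, h'⟩
    exact ⟨⟨x, h⟩, h', rfl⟩

theorem kr_le (N : Subgroup G) (f : N →* Multiplicative ℤ) : kr N f ≤ N := by
  intro x hx
  exact (mem_kr.1 hx).1

theorem kr_conj {N : Subgroup G} {f : N →* Multiplicative ℤ} {g x : G} (hg : g ∈ N)
    (hx : x ∈ kr N f) : g * x * g⁻¹ ∈ kr N f := by
  obtain ⟨h, h'⟩ := mem_kr.1 hx
  refine mem_kr.2 ⟨N.mul_mem (N.mul_mem hg h) (N.inv_mem hg), ?_⟩
  have e : (⟨g * x * g⁻¹, N.mul_mem (N.mul_mem hg h) (N.inv_mem hg)⟩ : N) =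
      ⟨g, hg⟩ * ⟨x, h⟩ * (⟨g, hg⟩ : N)⁻¹ := rfl
  rw [e, map_mul, map_mul, h', map_inv, mul_one, mul_inv_cancel]

theorem kr_comm (N : Subgroup G) (f : N →* Multiplicative ℤ) :
    N ≤ Subgroup.Commensurable.commensurator (kr N f) := by
  intro g hg
  rw [Subgroup.Commensurable.commensurator_mem_iff]
  have h1 : ConjAct.toConjAct g • kr N f = kr N f := by
    ext x
    rw [Subgroup.mem_pointwise_smul_iff_inv_smul_mem, ← ConjAct.toConjAct_inv,
      ConjAct.toConjAct_smul, inv_inv]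
    constructor
    · intro h
      have := kr_conj hg h
      convert this using 1
      group
    · intro h
      have := kr_conj (N.inv_mem hg) h
      simpa using this
  rw [h1]

/-- an element whose image generates the range of `f` -/
theorem exists_t (N : Subgroup G) (f : N →* Multiplicative ℤ) (hf : f ≠ 1) :
    ∃ t : G, ∃ ht : t ∈ N, f ⟨t, ht⟩ ≠ 1 ∧ ∀ x ∈ N, ∃ m : ℤ, x * (t ^ m)⁻¹ ∈ kr N f := by
  obtain ⟨⟨z, hz⟩, hgen⟩ := IsCyclic.exists_generator (α := f.range)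
  obtain ⟨t, rfl⟩ := hz
  have h1 : ∀ x : N, ∃ m : ℤ, f x = f t ^ m := by
    intro x
    obtain ⟨m, hm⟩ := Subgroup.mem_zpowers_iff.1 (hgen ⟨f x, x, rfl⟩)
    refine ⟨m, ?_⟩
    have := congrArg Subtype.val hm
    simpa using this.symm
  refine ⟨t, t.2, ?_, ?_⟩
  · intro h
    apply hf
    ext x
    obtain ⟨m, hm⟩ := h1 x
    have h' : f t = 1 := h
    rw [hm, h']
    simp
  · intro x hx
    obtain ⟨m, hm⟩ := h1 ⟨x, hx⟩
    refine ⟨m, mem_kr.2 ⟨N.mul_mem hx (N.inv_mem (N.zpow_mem t.2 m)), ?_⟩⟩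
    have e : (⟨x * ((t : G) ^ m)⁻¹, N.mul_mem hx (N.inv_mem (N.zpow_mem t.2 m))⟩ : N) =
        ⟨x, hx⟩ * (t ^ m)⁻¹ := by
      apply Subtype.ext
      simp
    rw [e, map_mul, map_inv, map_zpow, hm, mul_inv_cancel]

theorem zpow_one_imp {a : Multiplicative ℤ} (ha : a ≠ 1) {m : ℤ} (h : a ^ m = 1) : m = 0 := by
  have h1 : Multiplicative.toAdd (a ^ m) = 0 := by rw [h]; rfl
  rw [toAdd_zpow, smul_eq_mul] at h1
  rcases mul_eq_zero.1 h1 with h2 | h2
  · exact h2
  · exact absurd (Multiplicative.toAdd.injective h2) ha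

theorem kr_relIndex (N : Subgroup G) (f : N →* Multiplicative ℤ) (hf : f ≠ 1) :
    (kr N f).relIndex N = 0 := by
  by_contra h
  obtain ⟨t, ht, h1, _⟩ := exists_t N f hf
  obtain ⟨n, hn, _, h3⟩ := Subgroup.exists_pow_mem_of_relIndex_ne_zero h ht
  obtain ⟨h4, h5⟩ := mem_kr.1 h3.1
  have e : (⟨t ^ n, h4⟩ : N) = ⟨t, ht⟩ ^ (n : ℤ) := by
    apply Subtype.ext
    simp
  rw [e, map_zpow] at h5
  have := zpow_one_imp h1 h5
  omega

/-- the kernel is finitely generated in subexponential growth -/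
theorem kr_fg {S : Finset G} (hS : Subgroup.closure (S : Set G) = ⊤) (hg : SubexpGrowth S)
    (N : Subgroup G) (hN : N.FG) (f : N →* Multiplicative ℤ) (hf : f ≠ 1) : (kr N f).FG := by
  classical
  obtain ⟨A, hA⟩ := hN
  obtain ⟨t, ht, ht1, htm⟩ := exists_t N f hf
  have hAN : ∀ a ∈ A, a ∈ N := by
    intro a ha
    rw [← hA]
    exact Subgroup.subset_closure ha
  have h1 : ∀ a : G, ∃ m : ℤ, a ∈ A → a * (t ^ m)⁻¹ ∈ kr N f := by
    intro a
    by_cases ha : a ∈ A
    · obtain ⟨m, hm⟩ := htm a (hAN a ha)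
      exact ⟨m, fun _ => hm⟩
    · exact ⟨0, fun h => absurd h ha⟩
  choose m hm using h1
  choose F hF1 hF2 hF3 hF4 using fun a : G => exists_norm hS hg t (a * (t ^ m a)⁻¹)
  set E : Finset G := A.biUnion F with hE
  set H : Subgroup G := Subgroup.closure (E : Set G) with hH
  have hFE : ∀ a ∈ A, Subgroup.closure (F a : Set G) ≤ H := by
    intro a ha
    apply Subgroup.closure_mono
    intro x hx
    simp only [hE, Finset.coe_biUnion, Set.mem_iUnion]
    exact ⟨a, ha, hx⟩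
  have hEm : ∀ x ∈ E, ∃ a ∈ A, x ∈ F a := by
    intro x hx
    simpa [hE] using hx
  have hHK : H ≤ kr N f := by
    rw [hH, Subgroup.closure_le]
    intro x hx
    obtain ⟨a, ha, hxa⟩ := hEm x hx
    obtain ⟨i, rfl⟩ := hF1 a x hxa
    exact kr_conj (N.zpow_mem ht i) (hm a ha)
  have up : ∀ x ∈ H, t * x * t⁻¹ ∈ H := by
    intro x hx
    induction hx using Subgroup.closure_induction with
    | mem x hx =>
      obtain ⟨a, ha, hxa⟩ := hEm x hx
      exact hFE a ha (hF3 a x (Subgroup.subset_closure hxa))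
    | one => simp
    | mul x y _ _ hx hy =>
      have := Subgroup.mul_mem _ hx hy
      convert this using 1
      group
    | inv x _ hx =>
      have := Subgroup.inv_mem _ hx
      convert this using 1
      group
  have dn : ∀ x ∈ H, t⁻¹ * x * t ∈ H := by
    intro x hx
    induction hx using Subgroup.closure_induction with
    | mem x hx =>
      obtain ⟨a, ha, hxa⟩ := hEm x hx
      exact hFE a ha (hF4 a x (Subgroup.subset_closure hxa))
    | one => simp
    | mul x y _ _ hx hy =>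
      have := Subgroup.mul_mem _ hx hy
      convert this using 1
      group
    | inv x _ hx =>
      have := Subgroup.inv_mem _ hx
      convert this using 1
      group
  have all : ∀ n : ℕ, ∀ x ∈ H, t ^ (n : ℤ) * x * (t ^ (n : ℤ))⁻¹ ∈ H ∧
      t ^ (-(n : ℤ)) * x * (t ^ (-(n : ℤ)))⁻¹ ∈ H := by
    intro n
    induction n with
    | zero => intro x hx; simpa using hx
    | succ n ih =>
      intro x hx
      constructor
      · have := up _ (ih x hx).1
        convert this using 1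
        push_cast
        rw [add_comm, zpow_add, zpow_one]
        group
      · have := dn _ (ih x hx).2
        convert this using 1
        push_cast
        rw [neg_add_rev, zpow_add, zpow_neg_one]
        group
  have all' : ∀ i : ℤ, ∀ x ∈ H, t ^ i * x * (t ^ i)⁻¹ ∈ H := by
    intro i x hx
    rcases Int.eq_nat_or_neg i with ⟨n, rfl | rfl⟩
    · exact (all n x hx).1
    · exact (all n x hx).2
  have hdec : ∀ x ∈ N, ∃ h ∈ H, ∃ i : ℤ, x = h * t ^ i := by
    intro x hx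
    rw [← hA] at hx
    induction hx using Subgroup.closure_induction with
    | mem a ha =>
      exact ⟨a * (t ^ m a)⁻¹, hFE a ha (hF2 a), m a, by group⟩
    | one => exact ⟨1, H.one_mem, 0, by simp⟩
    | mul x y _ _ hx hy =>
      obtain ⟨h, hh, i, rfl⟩ := hx
      obtain ⟨h', hh', i', rfl⟩ := hy
      refine ⟨h * (t ^ i * h' * (t ^ i)⁻¹), H.mul_mem hh (all' i h' hh'), i + i', ?_⟩
      rw [zpow_add]
      group
    | inv x _ hx =>
      obtain ⟨h, hh, i, rfl⟩ := hx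
      refine ⟨t ^ (-i) * h⁻¹ * (t ^ (-i))⁻¹, all' (-i) _ (H.inv_mem hh), -i, ?_⟩
      group
  refine ⟨E, le_antisymm hHK ?_⟩
  intro x hx
  obtain ⟨hxN, hx1⟩ := mem_kr.1 hx
  obtain ⟨h, hh, i, hi⟩ := hdec x hxN
  obtain ⟨hhN, hh1⟩ := mem_kr.1 (hHK hh)
  have e : (⟨x, hxN⟩ : N) = ⟨h, hhN⟩ * ⟨t, ht⟩ ^ i := by
    apply Subtype.ext
    simp [hi]
  rw [e, map_mul, hh1, one_mul, map_zpow] at hx1
  have := zpow_one_imp ht1 hx1
  rw [hi, this]
  simpa using hh

theorem kr_infinite (N : Subgroup G) (f : N →* Multiplicative ℤ) (hf : f ≠ 1)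
    (hvc : ∀ z ∈ N, (Subgroup.zpowers z).relIndex N = 0) : (kr N f : Set G).Infinite := by
  intro hfin
  obtain ⟨t, ht, _, htm⟩ := exists_t N f hf
  obtain ⟨g, hg, h1⟩ := exists_far (Subgroup.zpowers t) N (hvc t ht) hfin
  obtain ⟨m, hm⟩ := htm g hg
  apply h1 _ hm
  have : (g * (t ^ m)⁻¹)⁻¹ * g = t ^ m := by group
  rw [this]
  exact Subgroup.zpow_mem_zpowers t m

theorem growth_not_asdim_one {S : Finset G} (hS : Subgroup.closure (S : Set G) = ⊤)
    (hg : SubexpGrowth S) (N : Subgroup G) (hN : N.FG) (f : N →* Multiplicative ℤ) (hf : f ≠ 1)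
    (hvc : ∀ z ∈ N, (Subgroup.zpowers z).relIndex N = 0) : ¬ AsdimLE S 1 :=
  not_asdim_one hS (kr N f) N (kr_fg hS hg N hN f hf) hN (kr_le N f) (kr_comm N f)
    (kr_relIndex N f hf) (kr_infinite N f hf hvc)

end Pool.Agent.ASD
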