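import Pool.Agent.ASD.Comm

/-!
# Subexponential growth: kernels of homomorphisms onto the integers are finitely generated
-/

set_option autoImplicit false

namespace Pool.Agent.ASD

open scoped Pointwise

variable {G : Type*} [Group G]

/-- subexponential growth, in the form used by the frozen statement of the problem -/
def SubexpGrowth (S : Finset G) : Prop :=
  ∀ b : ℝ, 1 < b → ∃ N : ℕ, ∀ r : ℕ, N ≤ r →
    ((Set.ncard {g : G | Bl S r g} : ℕ) : ℝ) ≤ b ^ r

/-- the products of the Milnor argument -/
def pr (t k : G) : List Bool → G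
  | [] => 1
  | e :: l => pr t k l * (if e then k else 1) * t

/-- the conjugates `t^i k t^(-i)` with `i < n` -/
def cj (t k : G) (n : ℕ) : Subgroup G :=
  Subgroup.closure {x | ∃ i < n, x = t ^ i * k * (t ^ i)⁻¹}

theorem cj_mono (t k : G) {m n : ℕ} (h : m ≤ n) : cj t k m ≤ cj t k n := by
  apply Subgroup.closure_mono
  rintro x ⟨i, hi, rfl⟩
  exact ⟨i, by omega, rfl⟩

theorem pr_mem (t k : G) (l : List Bool) : pr t k l * (t ^ l.length)⁻¹ ∈ cj t k l.length := by
  induction l with
  | nil => simp [pr]
  | cons e l ih =>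
    have h1 : t ^ l.length * (if e then k else 1) * (t ^ l.length)⁻¹ ∈ cj t k (e :: l).length := by
      split_ifs
      · exact Subgroup.subset_closure ⟨l.length, by simp, rfl⟩
      · simp
    have h2 := (cj t k (e :: l).length).mul_mem (cj_mono t k (by simp) ih) h1
    convert h2 using 1
    simp only [pr, List.length_cons, pow_succ]
    group

theorem pr_inj (t k : G) (h : ∀ n, t ^ n * k * (t ^ n)⁻¹ ∉ cj t k n) :
    ∀ l l' : List Bool, l.length = l'.length → pr t k l = pr t k l' → l = l' := by
  intro l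
  induction l with
  | nil =>
    intro l' h1 _
    exact (List.length_eq_zero_iff.1 h1.symm).symm
  | cons e l ih =>
    intro l' h1 h2
    cases l' with
    | nil => simp at h1
    | cons e' l' =>
      have h1' : l.length = l'.length := by simpa using h1
      simp only [pr, mul_left_inj] at h2
      have key : ∀ m m' : List Bool, m.length = m'.length → pr t k m * k = pr t k m' → False := by
        intro m m' h3 h4
        apply h m.length
        have h5 := (cj t k m.length).mul_mem ((cj t k m.length).inv_mem (pr_mem t k m))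
          (by rw [h3]; exact pr_mem t k m' : pr t k m' * (t ^ m.length)⁻¹ ∈ cj t k m.length)
        convert h5 using 1
        rw [← h4]
        group
      cases e <;> cases e'
      · simp only [Bool.false_eq_true, if_false, mul_one] at h2
        rw [ih l' h1' h2]
      · exfalso
        simp only [Bool.false_eq_true, if_false, mul_one, if_true] at h2
        exact key l' l h1'.symm h2.symm
      · exfalso
        simp only [Bool.false_eq_true, if_false, mul_one, if_true] at h2
        exact key l l' h1' h2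
      · simp only [if_true, mul_left_inj] at h2
        rw [ih l' h1' h2]

theorem pr_bl {S : Finset G} {t k : G} {c : ℕ} (ht : Bl S c t) (hk : Bl S c k) (l : List Bool) :
    Bl S (l.length * (2 * c)) (pr t k l) := by
  induction l with
  | nil => simp only [pr]; exact Bl.one
  | cons e l ih =>
    have h1 : Bl S c (if e then k else 1) := by
      split_ifs
      · exact hk
      · exact Bl.one
    have h2 := (ih.mul h1).mul ht
    refine h2.mono ?_
    simp only [List.length_cons]
    ring_nf
    omega

theorem exists_cj {S : Finset G} (hS : Subgroup.closure (S : Set G) = ⊤) (hg : SubexpGrowth S)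
    (t k : G) : ∃ n, 1 ≤ n ∧ t ^ n * k * (t ^ n)⁻¹ ∈ cj t k n := by
  by_cases hk : k = 1
  · refine ⟨1, le_rfl, ?_⟩
    subst hk
    simp
  by_contra hcon
  push Not at hcon
  have h : ∀ n, t ^ n * k * (t ^ n)⁻¹ ∉ cj t k n := by
    intro n
    rcases Nat.eq_zero_or_pos n with rfl | hn
    · intro h1
      apply hk
      have h2 : cj t k 0 = ⊥ := by
        unfold cj
        rw [Subgroup.closure_eq_bot_iff]
        rintro x ⟨i, hi, _⟩
        omega
      rw [h2, Subgroup.mem_bot] at h1
      simpa using h1
    · exact hcon n hn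
  have hall : ∀ g : G, g ∈ Subgroup.closure (S : Set G) := by
    intro g; rw [hS]; trivial
  obtain ⟨c₁, hc₁⟩ := exists_bl (hall t)
  obtain ⟨c₂, hc₂⟩ := exists_bl (hall k)
  set c := c₁ + c₂ + 1 with hc
  have ht : Bl S c t := hc₁.mono (by omega)
  have hk' : Bl S c k := hc₂.mono (by omega)
  have hcount : ∀ n : ℕ, 2 ^ n ≤ Set.ncard {g : G | Bl S (n * (2 * c)) g} := by
    intro n
    have h1 : Function.Injective (fun v : Fin n → Bool => pr t k (List.ofFn v)) := by
      intro v v' hv
      exact List.ofFn_injective (pr_inj t k h _ _ (by simp) hv)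
    have h2 : Set.range (fun v : Fin n → Bool => pr t k (List.ofFn v)) ⊆
        {g : G | Bl S (n * (2 * c)) g} := by
      rintro g ⟨v, rfl⟩
      have := pr_bl ht hk' (List.ofFn v)
      simpa using this
    have h3 := Set.ncard_le_ncard h2 (bl_finite S _)
    rw [← Set.image_univ, Set.ncard_image_of_injective _ h1, Set.ncard_univ] at h3
    simpa using h3
  have hc0 : 2 * c ≠ 0 := by omega
  obtain ⟨N, hN⟩ := hg ((3 / 2 : ℝ) ^ (((2 * c : ℕ) : ℝ)⁻¹))
    (Real.one_lt_rpow (by norm_num) (by positivity))
  have h4 := hN ((N + 1) * (2 * c)) (by nlinarith)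
  have h5 : ((2 : ℝ) ^ (N + 1)) ≤ (3 / 2 : ℝ) ^ (N + 1) := by
    have h6 : ((2 ^ (N + 1) : ℕ) : ℝ) ≤
        ((Set.ncard {g : G | Bl S ((N + 1) * (2 * c)) g} : ℕ) : ℝ) := by
      exact_mod_cast hcount (N + 1)
    have h7 : ((3 / 2 : ℝ) ^ (((2 * c : ℕ) : ℝ)⁻¹)) ^ ((N + 1) * (2 * c)) =
        (3 / 2 : ℝ) ^ (N + 1) := by
      rw [mul_comm (N + 1), pow_mul, Real.rpow_inv_natCast_pow (by norm_num) hc0]
    rw [h7] at h4
    have h8 := h6.trans h4
    push_cast at h8
    exact h8
  have h6 : (3 / 2 : ℝ) ^ (N + 1) < 2 ^ (N + 1) :=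
    pow_lt_pow_left₀ (by norm_num) (by norm_num) (by omega)
  linarith

/-- a finite set of conjugates of `k` generating a subgroup normalised by `t` -/
theorem exists_norm {S : Finset G} (hS : Subgroup.closure (S : Set G) = ⊤) (hg : SubexpGrowth S)
    (t k : G) : ∃ F : Finset G, (∀ x ∈ F, ∃ i : ℤ, x = t ^ i * k * (t ^ i)⁻¹) ∧
      k ∈ Subgroup.closure (F : Set G) ∧
      (∀ x ∈ Subgroup.closure (F : Set G), t * x * t⁻¹ ∈ Subgroup.closure (F : Set G)) ∧
      (∀ x ∈ Subgroup.closure (F : Set G), t⁻¹ * x * t ∈ Subgroup.closure (F : Set G)) := by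
  classical
  obtain ⟨n₀, h0, hn₀⟩ := exists_cj hS hg t k
  obtain ⟨n₁, h1, hn₁⟩ := exists_cj hS hg t⁻¹ k
  set F : Finset G := (Finset.Ioo (-(n₁ : ℤ)) (n₀ : ℤ)).image
    (fun i : ℤ => t ^ i * k * (t ^ i)⁻¹) with hF
  have hmem : ∀ i : ℤ, -(n₁ : ℤ) < i → i < (n₀ : ℤ) →
      t ^ i * k * (t ^ i)⁻¹ ∈ Subgroup.closure (F : Set G) := by
    intro i hi hi'
    apply Subgroup.subset_closure
    simp only [hF, Finset.coe_image, Set.mem_image, Finset.mem_coe, Finset.mem_Ioo]
    exact ⟨i, ⟨hi, hi'⟩, rfl⟩
  have hup : t ^ (n₀ : ℤ) * k * (t ^ (n₀ : ℤ))⁻¹ ∈ Subgroup.closure (F : Set G) := by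
    have h2 : cj t k n₀ ≤ Subgroup.closure (F : Set G) := by
      unfold cj
      rw [Subgroup.closure_le]
      rintro x ⟨i, hi, rfl⟩
      have := hmem i (by omega) (by omega)
      simpa using this
    have := h2 hn₀
    simpa using this
  have hdn : t ^ (-(n₁ : ℤ)) * k * (t ^ (-(n₁ : ℤ)))⁻¹ ∈ Subgroup.closure (F : Set G) := by
    have h2 : cj t⁻¹ k n₁ ≤ Subgroup.closure (F : Set G) := by
      unfold cj
      rw [Subgroup.closure_le]
      rintro x ⟨i, hi, rfl⟩
      have := hmem (-(i : ℤ)) (by omega) (by omega)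
      simpa using this
    have := h2 hn₁
    simpa using this
  refine ⟨F, ?_, ?_, ?_, ?_⟩
  · intro x hx
    simp only [hF, Finset.mem_image] at hx
    obtain ⟨i, _, rfl⟩ := hx
    exact ⟨i, rfl⟩
  · have := hmem 0 (by omega) (by omega)
    simpa using this
  · intro x hx
    induction hx using Subgroup.closure_induction with
    | mem x hx =>
      simp only [hF, Finset.coe_image, Set.mem_image, Finset.mem_coe, Finset.mem_Ioo] at hx
      obtain ⟨i, ⟨hi, hi'⟩, rfl⟩ := hx
      have e : t * (t ^ i * k * (t ^ i)⁻¹) * t⁻¹ = t ^ (i + 1) * k * (t ^ (i + 1))⁻¹ := by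
        rw [add_comm, zpow_add, zpow_one]
        group
      rw [e]
      rcases lt_or_eq_of_le (show i + 1 ≤ (n₀ : ℤ) by omega) with h | h
      · exact hmem _ (by omega) h
      · rw [h]; exact hup
    | one => simp
    | mul x y _ _ hx hy =>
      have := Subgroup.mul_mem _ hx hy
      convert this using 1
      group
    | inv x _ hx =>
      have := Subgroup.inv_mem _ hx
      convert this using 1
      group
  · intro x hx
    induction hx using Subgroup.closure_induction with
    | mem x hx =>
      simp only [hF, Finset.coe_image, Set.mem_image, Finset.mem_coe, Finset.mem_Ioo] at hx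
      obtain ⟨i, ⟨hi, hi'⟩, rfl⟩ := hx
      have e : t⁻¹ * (t ^ i * k * (t ^ i)⁻¹) * t = t ^ (i - 1) * k * (t ^ (i - 1))⁻¹ := by
        rw [sub_eq_neg_add, zpow_add, zpow_neg_one]
        group
      rw [e]
      rcases lt_or_eq_of_le (show -(n₁ : ℤ) ≤ i - 1 by omega) with h | h
      · exact hmem _ h (by omega)
      · rw [← h]; exact hdn
    | one => simp
    | mul x y _ _ hx hy =>
      have := Subgroup.mul_mem _ hx hy
      convert this using 1
      group
    | inv x _ hx =>
      have := Subgroup.inv_mem _ hx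
      convert this using 1
      group

end Pool.Agent.ASD
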