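import Pool.Agent.ASD.Basic

/-!
# The sheet over a commensurated subgroup
-/

set_option autoImplicit false

namespace Pool.Agent.ASD

variable {G : Type*} [Group G]

/-- pushing a path of a coset to the neighbouring coset -/
theorem push {S T : Finset G} {r₀ c C : ℕ} (K : Subgroup G) {g a : G}
    (hr : ∀ k ∈ K, ∃ b, Bl S r₀ b ∧ a⁻¹ * k * b ∈ K)
    (hc : ∀ h, Bl T 1 h → Bl S c h)
    (hC : ∀ h ∈ K, Bl S (r₀ + c + r₀) h → Bl T C h)
    (hC0 : 0 < C)
    (hT : ∀ h, Bl T 1 h → h ∈ K)
    (x : ℕ → G) (hx : ∀ i, Bl T 1 ((x i)⁻¹ * x (i + 1))) (hg : ∀ i, g⁻¹ * x i ∈ K) :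
    ∃ y : ℕ → G, (∀ i, Bl T 1 ((y i)⁻¹ * y (i + 1))) ∧ (∀ i, (g * a)⁻¹ * y i ∈ K) ∧
      (∀ i, Bl S r₀ ((x i)⁻¹ * y (C * i))) ∧
      (∀ i m, m ≤ C → Bl S (r₀ + C * c) ((x i)⁻¹ * y (C * i + m))) := by
  have h1 : ∀ i, ∃ b, Bl S r₀ b ∧ a⁻¹ * (g⁻¹ * x i) * b ∈ K := fun i => hr _ (hg i)
  choose b hb hbK using h1
  set z : ℕ → G := fun i => x i * b i with hz
  have hzK : ∀ i, (g * a)⁻¹ * z i ∈ K := by
    intro i
    have := hbK i
    simp only [hz]
    convert this using 1
    group
  have hzz : ∀ i, Bl T C ((z i)⁻¹ * z (i + 1)) := by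
    intro i
    apply hC
    · have h2 := K.mul_mem (K.inv_mem (hzK i)) (hzK (i + 1))
      convert h2 using 1
      group
    · have h3 := ((hb i).inv.mul (hc _ (hx i))).mul (hb (i + 1))
      convert h3 using 1
      simp only [hz]
      group
  have h4 : ∀ i, ∃ p : ℕ → G, p 0 = z i ∧ p C = z (i + 1) ∧
      ∀ m, Bl T 1 ((p m)⁻¹ * p (m + 1)) := by
    intro i
    obtain ⟨p, h5, h6, h7⟩ := exists_path (hzz i) (z i)
    exact ⟨p, h5, by rw [h6]; group, h7⟩
  choose p hp0 hpC hp1 using h4
  have hstep : ∀ n, Bl T 1 ((p (n / C) (n % C))⁻¹ * p ((n + 1) / C) ((n + 1) % C)) := by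
    intro n
    by_cases hn : n % C + 1 < C
    · have e1 : (n + 1) / C = n / C := by
        have h := Nat.div_add_mod n C
        rw [Nat.div_eq_of_lt_le]
        · nlinarith [Nat.div_mul_le_self n C]
        · rw [Nat.add_mul, one_mul]
          nlinarith
      have e2 : (n + 1) % C = n % C + 1 := by
        rw [Nat.add_mod, Nat.mod_eq_of_lt (a := n % C + 1 % C)]
        · by_cases h1C : C = 1
          · subst h1C; omega
          · rw [Nat.mod_eq_of_lt (a := 1) (by omega)]
        · by_cases h1C : C = 1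
          · subst h1C; omega
          · rw [Nat.mod_eq_of_lt (a := 1) (by omega)]
            exact hn
      rw [e1, e2]
      exact hp1 _ _
    · have hlt := Nat.mod_lt n hC0
      have hn' : n % C + 1 = C := by omega
      have e0 : n + 1 = C * (n / C + 1) := by
        have h := Nat.div_add_mod n C
        rw [mul_add, mul_one]
        omega
      have e1 : (n + 1) / C = n / C + 1 := by
        rw [e0, Nat.mul_div_cancel_left _ hC0]
      have e2 : (n + 1) % C = 0 := by
        rw [e0, Nat.mul_mod_right]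
      rw [e1, e2, hp0, ← hpC]
      have := hp1 (n / C) (n % C)
      rwa [hn'] at this
  have hpK : ∀ n, (g * a)⁻¹ * p (n / C) (n % C) ∈ K := by
    intro n
    induction n with
    | zero =>
      simp only [Nat.zero_div, Nat.zero_mod, hp0]
      exact hzK 0
    | succ n ih =>
      have h2 := K.mul_mem ih (hT _ (hstep n))
      convert h2 using 1
      group
  have hfar : ∀ i m, m ≤ C → Bl S (m * c) ((p i 0)⁻¹ * p i m) := by
    intro i m
    induction m with
    | zero => intro _; simp only [inv_mul_cancel]; exact Bl.one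
    | succ m ih =>
      intro hm
      have h2 := (ih (by omega)).mul (hc _ (hp1 i m))
      rw [Nat.add_mul, one_mul]
      convert h2 using 1
      group
  refine ⟨fun n => p (n / C) (n % C), hstep, hpK, ?_, ?_⟩
  · intro i
    simp only [Nat.mul_div_cancel_left _ hC0, Nat.mul_mod_right, hp0, hz]
    convert hb i using 1
    group
  · intro i m hm
    have h8 : p ((C * i + m) / C) ((C * i + m) % C) = p i m := by
      rcases Nat.lt_or_ge m C with h | h
      · rw [Nat.mul_add_div hC0, Nat.div_eq_of_lt h, Nat.mul_add_mod, Nat.mod_eq_of_lt h,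
          add_zero]
      · have : m = C := le_antisymm hm h
        subst this
        have e3 : m * i + m = m * (i + 1) := by ring
        rw [e3, Nat.mul_div_cancel_left _ hC0, Nat.mul_mod_right, hp0, hpC]
    simp only [h8]
    have h9 := (hb i).mul (hfar i m hm)
    have h10 := h9.mono (s := r₀ + C * c) (by
      have := Nat.mul_le_mul_right c hm
      omega)
    convert h10 using 1
    rw [hp0]
    simp only [hz]
    group

/-- the sheet: `F j i`, `j ≤ M`, over the word `a 0, …, a (M-1)` -/
theorem sheet {S T : Finset G} {r₀ c C : ℕ} (K : Subgroup G)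
    (Q : Set G)
    (hr : ∀ a ∈ Q, ∀ k ∈ K, ∃ b, Bl S r₀ b ∧ a⁻¹ * k * b ∈ K)
    (hc : ∀ h, Bl T 1 h → Bl S c h)
    (hC : ∀ h ∈ K, Bl S (r₀ + c + r₀) h → Bl T C h)
    (hC0 : 0 < C)
    (hT : ∀ h, Bl T 1 h → h ∈ K) (k : G) (hk : k ∈ Subgroup.closure (T : Set G))
    (a : ℕ → G) (M : ℕ) (ha : ∀ j < M, a j ∈ Q) :
    ∃ (L : ℕ) (F : ℕ → ℕ → G),
      (∀ j ≤ M, ∀ i, Bl T 1 ((F j i)⁻¹ * F j (i + 1))) ∧
      (∀ j < M, ∀ i, Bl S (r₀ + C * c) ((F j i)⁻¹ * F (j + 1) i)) ∧
      (∀ j ≤ M, Bl S (r₀ * j) (F j 0)) ∧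
      (∀ j ≤ M, Bl S (r₀ * j) (k⁻¹ * F j L)) ∧
      (∀ i, F 0 i ∈ K) ∧
      (∀ i, (((List.range M).map a).prod)⁻¹ * F M i ∈ K) := by
  induction M with
  | zero =>
    obtain ⟨L, hL⟩ := exists_bl hk
    obtain ⟨p, hp0, hpL, hp1⟩ := exists_path hL (1 : G)
    have hpK : ∀ i, p i ∈ K := by
      intro i
      induction i with
      | zero => rw [hp0]; exact K.one_mem
      | succ i ih =>
        have := K.mul_mem ih (hT _ (hp1 i))
        simpa using this
    refine ⟨L, fun _ => p, fun _ _ => hp1, fun j hj => absurd hj (by omega), ?_, ?_, hpK, ?_⟩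
    · intro j _; simp only [hp0]; exact Bl.one
    · intro j _
      simp only [hpL, one_mul, inv_mul_cancel]
      exact Bl.one
    · intro i; simpa using hpK i
  | succ M ih =>
    obtain ⟨L, F, h1, h2, h3, h4, h5, h6⟩ := ih (fun j hj => ha j (by omega))
    obtain ⟨y, y1, y2, y3, y4⟩ := push K (hr _ (ha M (by omega))) hc hC hC0 hT (F M)
      (h1 M le_rfl) h6
    refine ⟨C * L, fun j i => if j ≤ M then F j (i / C) else y i, ?_, ?_, ?_, ?_, ?_, ?_⟩
    · intro j hj i
      by_cases hjM : j ≤ M
      · simp only [hjM, if_true]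
        have h7 : (i + 1) / C = i / C ∨ (i + 1) / C = i / C + 1 := by
          rw [Nat.succ_div]
          split_ifs
          · right; rfl
          · left; rfl
        rcases h7 with h | h
        · rw [h, inv_mul_cancel]; exact Bl.one
        · rw [h]; exact h1 j hjM _
      · simp only [hjM, if_false]
        exact y1 i
    · intro j hj i
      rcases Nat.lt_or_ge j M with h | h
      · simp only [h.le, if_true, Nat.succ_le_of_lt h]
        exact h2 j h _
      · have hjM : j = M := by omega
        subst hjM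
        simp only [le_refl, if_true, show ¬ (j + 1 ≤ j) by omega, if_false]
        have h8 := y4 (i / C) (i % C) (Nat.mod_lt _ hC0).le
        rwa [Nat.div_add_mod] at h8
    · intro j hj
      by_cases hjM : j ≤ M
      · simp only [hjM, if_true, Nat.zero_div]
        exact h3 j hjM
      · have : j = M + 1 := by omega
        subst this
        simp only [hjM, if_false]
        have h9 := (h3 M le_rfl).mul (y3 0)
        rw [mul_add, mul_one]
        convert h9 using 1
        simp
    · intro j hj
      by_cases hjM : j ≤ M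
      · simp only [hjM, if_true, Nat.mul_div_cancel_left _ hC0]
        exact h4 j hjM
      · have : j = M + 1 := by omega
        subst this
        simp only [hjM, if_false]
        have h9 := (h4 M le_rfl).mul (y3 L)
        rw [mul_add, mul_one]
        convert h9 using 1
        group
    · intro i
      simp only [Nat.zero_le, if_true]
      exact h5 _
    · intro i
      simp only [show ¬ (M + 1 ≤ M) by omega, if_false]
      have := y2 i
      rw [List.range_succ, List.map_append, List.prod_append]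
      simpa using this

end Pool.Agent.ASD
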